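import Pool.Agent.H73.Cub.Mert
import Pool.Agent.H16.CoverER

/-!
Helper for MP_15f56c_nt: covering `1, …, t-1` by the conditions `m^3 = a p mod p`, `p ≤ z`.
-/

set_option autoImplicit false

open Finset Real Filter

namespace Pool.Agent.H73.Cub

open Pool.Agent.H16

/-- combinatorial core -/
lemma core (z w t : ℕ) (hw : 256 ≤ w) (hwz : 4 * w ≤ z) (a0 : ℕ → ℕ)
    (hcard : #{m ∈ bigA t z ∪ smB t w 1 | ∀ p ∈ (Nat.primesLE w).erase 7, m ^ 3 % p ≠ a0 p % p} + 2 ≤
      #(bigP z)) :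
    ∃ a : ℕ → ℕ, a 7 = 2 ∧ ∀ m, 0 < m → m < t → ∃ p, p.Prime ∧ p ≤ z ∧ m ^ 3 % p = a p % p := by
  set L := {m ∈ bigA t z ∪ smB t w 1 | ∀ p ∈ (Nat.primesLE w).erase 7, m ^ 3 % p ≠ a0 p % p} with hL
  classical
  obtain ⟨f, hf, hinj⟩ := greedy L (bigP z) (fun _ => ∅) (fun i _ => by simp) hcard
  refine ⟨fun p => if p = 7 then 2 else if p ≤ w then a0 p else if 4 * p ≤ z then 0 else
    if h : ∃ m ∈ L, f m = p then (Classical.choose h) ^ 3 else 0, by simp, ?_⟩
  intro m hm0 hmt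
  by_cases hmed : ∃ p, p.Prime ∧ w < p ∧ 4 * p ≤ z ∧ p ∣ m
  · obtain ⟨p, hp, hwp, hpz, hpm⟩ := hmed
    refine ⟨p, hp, by omega, ?_⟩
    simp only
    rw [if_neg (by omega), if_neg (by omega), if_pos hpz]
    rw [Nat.zero_mod]
    exact Nat.mod_eq_zero_of_dvd (dvd_pow hpm (by norm_num))
  · push Not at hmed
    have hU : m ∈ bigA t z ∪ smB t w 1 := by
      rw [Finset.mem_union]
      by_cases hbig : ∃ q, q.Prime ∧ z < 4 * q ∧ q ∣ m
      · left
        unfold bigA
        rw [Finset.mem_filter, Finset.mem_range]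
        exact ⟨hmt, hm0, hbig⟩
      · right
        push Not at hbig
        unfold smB
        rw [Finset.mem_filter, Finset.mem_range]
        refine ⟨hmt, hm0, fun q hq hqm => ?_⟩
        left
        by_contra hqw
        push Not at hqw
        by_cases h4 : 4 * q ≤ z
        · exact hmed q hq hqw h4 hqm
        · exact hbig q hq (by omega) hqm
    by_cases hsm : ∃ p ∈ (Nat.primesLE w).erase 7, m ^ 3 % p = a0 p % p
    · obtain ⟨p, hp, hpm⟩ := hsm
      rw [Finset.mem_erase, Nat.mem_primesLE] at hp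
      refine ⟨p, hp.2.2, by omega, ?_⟩
      simp only
      rw [if_neg hp.1, if_pos hp.2.1]
      exact hpm
    · push Not at hsm
      have hmL : m ∈ L := by
        rw [hL, Finset.mem_filter]
        exact ⟨hU, hsm⟩
      have hfm := (hf m hmL).1
      rw [mem_bigP] at hfm
      refine ⟨f m, hfm.1, hfm.2.1, ?_⟩
      simp only
      have h : ∃ m' ∈ L, f m' = f m := ⟨m, hmL, rfl⟩
      rw [if_neg (by omega), if_neg (by omega), if_neg (by omega), dif_pos h]
      have hc := Classical.choose_spec h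
      rw [hinj (Finset.mem_coe.mpr hc.1) (Finset.mem_coe.mpr hmL) hc.2]

/-- the size of the covered interval -/
noncomputable def G (z : ℝ) : ℝ :=
  z * Real.log z ^ 2 * Real.log (Real.log (Real.log z)) ^ 2 / (Real.log (Real.log z)) ^ 3

theorem cover_cubes : ∃ c : ℝ, 0 < c ∧ ∀ᶠ z : ℕ in atTop, ∀ t : ℕ, (t : ℝ) ≤ c * G z →
    ∃ a : ℕ → ℕ, a 7 = 2 ∧ ∀ m, 0 < m → m < t → ∃ p, p.Prime ∧ p ≤ z ∧ m ^ 3 % p = a p % p := by
  obtain ⟨C1, hC1, hV⟩ := prod_kappa
  obtain ⟨C2, hC2, hS⟩ := card_smB'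
  set c : ℝ := min 1 (1 / (23490 * C1)) with hc
  have hcpos : 0 < c := by rw [hc]; positivity
  have hc1 : c ≤ 1 := min_le_left _ _
  have hc2 : c * C1 ≤ 1 / 23490 := by
    have : c ≤ 1 / (23490 * C1) := min_le_right _ _
    calc c * C1 ≤ 1 / (23490 * C1) * C1 := by gcongr
      _ = 1 / 23490 := by field_simp
  refine ⟨c, hcpos, ?_⟩
  filter_upwards [ev_bigP, ev_L3 1000, ev_L2 1, ev_L1 (160 * C2 + 1000), ev_L1 (1 / c),
    eventually_ge_atTop 2] with z hbig hL3 hL2 hL1C hL1c hz2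
  -- notation
  set L1 := Real.log (z : ℝ) with hL1def
  set L2 := Real.log L1 with hL2def
  set L3 := Real.log L2 with hL3def
  have hz0 : (0 : ℝ) < z := by exact_mod_cast (by omega : 0 < z)
  have hL1pos : 0 < L1 := by linarith
  have hL2pos : 0 < L2 := by linarith
  have hL3pos : 0 < L3 := by linarith
  have eL2 : Real.exp L3 = L2 := Real.exp_log hL2pos
  have eL1 : Real.exp L2 = L1 := Real.exp_log hL1pos
  have ez : Real.exp L1 = z := Real.exp_log hz0
  have h23 : L3 ^ 2 / 2 ≤ L2 := by rw [← eL2]; exact sq_div_two_le_exp hL3pos.le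
  have h23' : 500 * L3 ≤ L2 := by linarith [mul_le_mul_of_nonneg_right hL3 hL3pos.le]
  have h12 : L2 ^ 3 / 6 ≤ L1 := by rw [← eL1]; exact cube_div_six_le_exp hL2pos.le
  have hL2big : 500000 ≤ L2 := by linarith
  have h12' : 10 ^ 6 * L2 ≤ L1 := by
    have h := mul_le_mul hL2big hL2big (by norm_num) hL2pos.le
    linarith [mul_le_mul_of_nonneg_right h hL2pos.le]
  have h01 : L1 ^ 3 / 6 ≤ z := by rw [← ez]; exact cube_div_six_le_exp hL1pos.le
  have hL1big : 10 ^ 11 ≤ L1 := by linarith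
  have h01' : 10 ^ 6 * L1 ≤ z := by
    have h := mul_le_mul hL1big hL1big (by norm_num) hL1pos.le
    linarith [mul_le_mul_of_nonneg_right h hL1pos.le]
  -- the interval contains `z`
  have hzG : (z : ℝ) ≤ c * G z := by
    unfold G
    have h1 : (1 : ℝ) ≤ L3 ^ 2 / 6 := by
      have := mul_le_mul hL3 hL3 (by norm_num) hL3pos.le
      linarith
    have h2 : L1 ≤ L1 ^ 2 * L3 ^ 2 / L2 ^ 3 := by
      rw [le_div_iff₀ (by positivity)]
      have h3 : L2 ^ 3 ≤ L1 * L3 ^ 2 := by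
        calc L2 ^ 3 ≤ 6 * L1 := by linarith
          _ = 6 * L1 * 1 := by ring
          _ ≤ 6 * L1 * (L3 ^ 2 / 6) := by gcongr
          _ = L1 * L3 ^ 2 := by ring
      calc L1 * L2 ^ 3 ≤ L1 * (L1 * L3 ^ 2) := by gcongr
        _ = _ := by ring
    have h3 : 1 ≤ c * L1 := by
      rw [div_le_iff₀ hcpos] at hL1c
      linarith
    calc (z : ℝ) = 1 * z := by ring
      _ ≤ (c * L1) * z := by gcongr
      _ = c * (z * L1) := by ring
      _ ≤ c * (z * (L1 ^ 2 * L3 ^ 2 / L2 ^ 3)) := by gcongr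
      _ = _ := by ring
  -- reduction to `z ≤ t`
  suffices hmain : ∀ t : ℕ, z ≤ t → (t : ℝ) ≤ c * G z →
      ∃ a : ℕ → ℕ, a 7 = 2 ∧ ∀ m, 0 < m → m < t → ∃ p, p.Prime ∧ p ≤ z ∧ m ^ 3 % p = a p % p by
    intro t ht
    rcases le_total z t with h | h
    · exact hmain t h ht
    · obtain ⟨a, ha7, ha⟩ := hmain z le_rfl hzG
      exact ⟨a, ha7, fun m h0 hmt => ha m h0 (lt_of_lt_of_le hmt h)⟩
  intro t hcase htER
  have ht0 : 0 < t := by omega
  -- size of t
  have ht0' : (0 : ℝ) < t := by exact_mod_cast ht0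
  have htz : (z : ℝ) ≤ t := by exact_mod_cast hcase
  have htU : (t : ℝ) ≤ c * (z * L1 ^ 2 * L3 ^ 2 / L2 ^ 3) := htER
  have htzL : (t : ℝ) ≤ z * L1 ^ 2 := by
    have h1 : z * L1 ^ 2 * L3 ^ 2 / L2 ^ 3 ≤ z * L1 ^ 2 := by
      rw [div_le_iff₀ (by positivity)]
      have h2 : L3 ^ 2 ≤ L2 ^ 3 := by
        have h3 : L3 ≤ L2 := by linarith
        calc L3 ^ 2 ≤ L2 ^ 2 := pow_le_pow_left₀ hL3pos.le h3 2
          _ ≤ L2 ^ 3 := pow_le_pow_right₀ (by linarith) (by norm_num)
      have h3 : 0 ≤ z * L1 ^ 2 := by positivity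
      exact mul_le_mul_of_nonneg_left h2 h3
    have h2 : 0 ≤ z * L1 ^ 2 * L3 ^ 2 / L2 ^ 3 := by positivity
    calc (t : ℝ) ≤ c * (z * L1 ^ 2 * L3 ^ 2 / L2 ^ 3) := htU
      _ ≤ 1 * (z * L1 ^ 2 * L3 ^ 2 / L2 ^ 3) := by gcongr
      _ ≤ _ := by linarith
  have hlogt1 : L1 ≤ Real.log t := Real.log_le_log hz0 htz
  have hlogt2 : Real.log t ≤ 2 * L1 := by
    calc Real.log t ≤ Real.log (z * L1 ^ 2) := Real.log_le_log ht0' htzL
      _ = L1 + 2 * L2 := by
          rw [Real.log_mul hz0.ne' (by positivity), Real.log_pow, ← hL2def, ← hL1def]; norm_num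
      _ ≤ 2 * L1 := by linarith
  -- the parameter w
  set E : ℝ := L1 * L3 / (8 * L2) with hE
  have hE1 : 100 ≤ E := by
    rw [hE, le_div_iff₀ (by positivity)]
    linarith [mul_le_mul_of_nonneg_left hL3 hL1pos.le]
  have hEL1 : 60 * E ≤ L1 / 4 := by
    rw [hE]
    have : L1 * L3 / (8 * L2) ≤ L1 / 4000 := by
      rw [div_le_div_iff₀ (by positivity) (by norm_num)]
      have := mul_le_mul_of_nonneg_left h23' hL1pos.le
      linarith
    linarith
  set w : ℕ := ⌊Real.exp E⌋₊ with hw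
  have hexpE : (1000 : ℝ) ≤ Real.exp E := by
    have := sq_div_two_le_exp (show (0 : ℝ) ≤ E by linarith)
    have h := mul_le_mul hE1 hE1 (by norm_num) (by linarith)
    linarith
  have hwle : (w : ℝ) ≤ Real.exp E := Nat.floor_le (Real.exp_pos _).le
  have hwge : Real.exp E / 2 ≤ w := by
    have := Nat.lt_floor_add_one (Real.exp E)
    rw [← hw] at this
    linarith
  have hw0 : (0 : ℝ) < w := by linarith
  have hw256' : (256 : ℝ) ≤ w := by linarith
  have hw256 : 256 ≤ w := by exact_mod_cast hw256'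
  have hlogw_le : Real.log w ≤ E := by
    rw [Real.log_le_iff_le_exp hw0]; exact hwle
  have hlogw_ge : L1 * L3 / (9 * L2) ≤ Real.log w := by
    have h1 : E - 1 ≤ Real.log w := by
      rw [Real.le_log_iff_exp_le hw0, Real.exp_sub]
      refine le_trans ?_ hwge
      apply div_le_div_of_nonneg_left (Real.exp_pos _).le (by norm_num)
      have := Real.add_one_le_exp (1 : ℝ); linarith
    have h2 : L1 * L3 / (9 * L2) = E * (8 / 9) := by rw [hE]; field_simp
    rw [h2]; linarith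
  have hlogwpos : 0 < Real.log w := Real.log_pos (by linarith)
  have h4w : 4 * w ≤ z := by
    have h1 : 4 * (w : ℝ) ≤ z := by
      calc 4 * (w : ℝ) ≤ 4 * Real.exp E := by linarith
        _ ≤ Real.exp 3 * Real.exp E := by
            have := Real.add_one_le_exp (3 : ℝ)
            have := Real.exp_pos E
            apply mul_le_mul_of_nonneg_right _ this.le
            linarith
        _ = Real.exp (3 + E) := by rw [Real.exp_add]
        _ ≤ Real.exp L1 := Real.exp_le_exp.mpr (by linarith)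
        _ = z := ez
    exact_mod_cast h1
  -- A
  have hz4 : 2 ≤ z / 4 := by
    have : (8 : ℝ) ≤ z := by linarith
    have : 8 ≤ z := by exact_mod_cast this
    omega
  have hz4' : (z : ℝ) / 8 ≤ ((z / 4 : ℕ) : ℝ) := by
    have h1 : z ≤ 8 * (z / 4) := by omega
    have h2 : (z : ℝ) ≤ 8 * ((z / 4 : ℕ) : ℝ) := by exact_mod_cast h1
    linarith
  have hz4t : z / 4 ≤ t := (Nat.div_le_self z 4).trans hcase
  have hAc := card_bigB t (z / 4) hz4 hz4t
  rw [← bigA_eq] at hAc
  have hz4pos : (0 : ℝ) < ((z / 4 : ℕ) : ℝ) := by linarith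
  have hAc' : (#(bigA t z) : ℝ) ≤ 56 * (t * L2 / L1) := by
    refine hAc.trans ?_
    have h1 : 1 + Real.log ((t : ℝ) / ((z / 4 : ℕ) : ℝ)) ≤ 4 * L2 := by
      have h2 : (t : ℝ) / ((z / 4 : ℕ) : ℝ) ≤ 8 * L1 ^ 2 := by
        rw [div_le_iff₀ hz4pos]
        linarith [mul_le_mul_of_nonneg_right hz4' (sq_nonneg L1)]
      have h3 : Real.log ((t : ℝ) / ((z / 4 : ℕ) : ℝ)) ≤ Real.log (8 * L1 ^ 2) :=
        Real.log_le_log (by positivity) h2
      rw [Real.log_mul (by norm_num) (by positivity), Real.log_pow] at h3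
      have h4 : Real.log 8 ≤ 7 := (Real.log_le_sub_one_of_pos (by norm_num)).trans (by norm_num)
      push_cast at h3
      linarith
    have h2 : L1 / 2 ≤ Real.log ((z / 4 : ℕ) : ℝ) := by
      have h3 : Real.log ((z : ℝ) / 8) ≤ Real.log ((z / 4 : ℕ) : ℝ) :=
        Real.log_le_log (by positivity) hz4'
      rw [Real.log_div hz0.ne' (by norm_num)] at h3
      have h4 : Real.log 8 ≤ 7 := (Real.log_le_sub_one_of_pos (by norm_num)).trans (by norm_num)
      linarith
    calc 7 * ((t : ℝ) * (1 + Real.log ((t : ℝ) / ((z / 4 : ℕ) : ℝ))) /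
          Real.log ((z / 4 : ℕ) : ℝ)) ≤ 7 * ((t : ℝ) * (4 * L2) / (L1 / 2)) := by gcongr
      _ = _ := by field_simp; ring
  -- smooth part
  set η : ℝ := 6 * L2 / L1 with hη
  have hη0 : 0 < η := by positivity
  have hη1 : η ≤ 1 / 4 := by
    rw [hη, div_le_iff₀ hL1pos]; linarith
  have hQle : 1 ≤ t ^ 3 := Nat.one_le_pow _ _ ht0
  have hB := hS t w 1 η hw256 hη0 hη1 (by norm_num) hQle ht0
  have hB' : (#(smB t w 1) : ℝ) ≤ 1 / 40 * (z / L1) := by
    refine hB.trans ?_
    have h1 : (t : ℝ) ^ (1 - η) ≤ z * L1 ^ 2 * Real.exp (-(6 * L2)) := by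
      rw [sub_eq_add_neg, Real.rpow_add ht0', Real.rpow_one]
      apply mul_le_mul htzL _ (by positivity) (by positivity)
      rw [Real.rpow_def_of_pos ht0']
      apply Real.exp_le_exp.mpr
      have h2 : L1 * η ≤ Real.log t * η := by gcongr
      have h3 : L1 * η = 6 * L2 := by rw [hη]; field_simp
      linarith
    have h2 : 2 * (w : ℝ) ^ η + 3 * (Real.log t / Real.log w) ≤ L2 := by
      have h3 : (w : ℝ) ^ η ≤ L2 / 8 := by
        have h4 : (w : ℝ) ^ η ≤ Real.exp (3 * L3 / 4) := by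
          rw [Real.rpow_def_of_pos hw0]
          apply Real.exp_le_exp.mpr
          calc Real.log w * η ≤ E * η := by gcongr
            _ = 3 * L3 / 4 := by rw [hE, hη]; field_simp; ring
        refine h4.trans ?_
        have h5 : Real.exp (3 * L3 / 4) = L2 * Real.exp (-(L3 / 4)) := by
          rw [← eL2, ← Real.exp_add]; congr 1; ring
        rw [h5]
        have h6 : Real.exp (-(L3 / 4)) ≤ 1 / 8 := by
          rw [Real.exp_neg, one_div]
          apply inv_anti₀ (by norm_num)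
          have := Real.add_one_le_exp (L3 / 4)
          linarith
        linarith [mul_le_mul_of_nonneg_left h6 hL2pos.le]
      have h4 : Real.log t / Real.log w ≤ 18 * L2 / L3 := by
        rw [div_le_div_iff₀ hlogwpos hL3pos]
        have h5 : L1 * L3 ≤ 9 * L2 * Real.log w := by
          rw [div_le_iff₀ (by positivity)] at hlogw_ge
          linarith
        calc Real.log t * L3 ≤ 2 * L1 * L3 := by gcongr
          _ = 2 * (L1 * L3) := by ring
          _ ≤ 2 * (9 * L2 * Real.log w) := by linarith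
          _ = _ := by ring
      have h5 : 18 * L2 / L3 ≤ L2 / 50 := by
        rw [div_le_div_iff₀ hL3pos (by norm_num)]
        linarith [mul_le_mul_of_nonneg_left hL3 hL2pos.le]
      linarith
    have h3 : Real.exp (2 * (w : ℝ) ^ η + 3 * (Real.log t / Real.log w)) ≤ L1 := by
      rw [← eL1]; exact Real.exp_le_exp.mpr h2
    have h4 : Real.exp (-(6 * L2)) = 1 / L1 ^ 6 := by
      rw [Real.exp_neg, one_div, ← eL1, ← Real.exp_nat_mul]; norm_num
    have hwL1 : Real.log w ≤ L1 := by linarith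
    rw [h4] at h1
    calc C2 * Real.log w * (t : ℝ) ^ (1 - η) *
          Real.exp (2 * (w : ℝ) ^ η + 3 * (Real.log t / Real.log w))
        ≤ C2 * L1 * (z * L1 ^ 2 * (1 / L1 ^ 6)) * L1 := by gcongr
      _ = C2 / L1 * (z / L1) := by field_simp
      _ ≤ 1 / 40 * (z / L1) := by
          apply mul_le_mul_of_nonneg_right _ (by positivity)
          rw [div_le_iff₀ hL1pos]
          linarith
  -- the greedy choice
  obtain ⟨a0, ha0⟩ := greedy_all ((Nat.primesLE w).erase 7) (bigA t z ∪ smB t w 1)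
    (fun p hp => (Nat.mem_primesLE.mp (Finset.mem_erase.mp hp).2).2)
  refine core z w t hw256 h4w a0 ?_
  have hUcard : (#(bigA t z ∪ smB t w 1) : ℝ) ≤ 58 * (t * L2 / L1) := by
    have h1 : (#(bigA t z ∪ smB t w 1) : ℝ) ≤ #(bigA t z) + #(smB t w 1) := by
      exact_mod_cast Finset.card_union_le _ _
    have h2 : (z : ℝ) / L1 ≤ t * L2 / L1 := by
      apply div_le_div_of_nonneg_right _ hL1pos.le
      calc (z : ℝ) ≤ t := htz
        _ = t * 1 := by ring
        _ ≤ t * L2 := by gcongr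
    have h3 : 0 ≤ (z : ℝ) / L1 := by positivity
    linarith
  have hV' := hV w (by omega)
  have hlw2 : (L1 * L3 / (9 * L2)) ^ 2 ≤ Real.log w ^ 2 :=
    pow_le_pow_left₀ (by positivity) hlogw_ge 2
  have hfin : (#{m ∈ bigA t z ∪ smB t w 1 | ∀ p ∈ (Nat.primesLE w).erase 7, m ^ 3 % p ≠ a0 p % p} : ℝ)
      ≤ 1 / 5 * (z / L1) := by
    have hcw : C1 / Real.log w ^ 2 ≤ C1 / (L1 * L3 / (9 * L2)) ^ 2 :=
      div_le_div_of_nonneg_left hC1.le (by positivity) hlw2
    calc _ ≤ _ := ha0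
      _ ≤ (58 * (t * L2 / L1)) * (C1 / (L1 * L3 / (9 * L2)) ^ 2) := by
          apply mul_le_mul hUcard (hV'.trans hcw) _ (by positivity)
          apply Finset.prod_nonneg
          intro p hp
          have hp' := (Nat.mem_primesLE.mp (Finset.mem_erase.mp hp).2).2
          have h1 : (1 : ℝ) ≤ #(cubesMod p) := by exact_mod_cast card_cubesMod_pos hp'.pos
          have h2 : 1 / (#(cubesMod p) : ℝ) ≤ 1 := by
            rw [div_le_one (by linarith)]; exact h1
          linarith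
      _ = (58 * 81) * C1 * (t * L2 ^ 3 / (L1 ^ 3 * L3 ^ 2)) := by field_simp; ring
      _ ≤ (58 * 81) * C1 * ((c * (z * L1 ^ 2 * L3 ^ 2 / L2 ^ 3)) * L2 ^ 3 / (L1 ^ 3 * L3 ^ 2)) := by
          gcongr
      _ = (58 * 81) * (c * C1) * (z / L1) := by field_simp
      _ ≤ (58 * 81) * (1 / 23490) * (z / L1) := by gcongr
      _ = 1 / 5 * (z / L1) := by ring
  have hzl : (1000 : ℝ) ≤ z / L1 := by
    rw [le_div_iff₀ hL1pos]; linarith
  have : (#{m ∈ bigA t z ∪ smB t w 1 | ∀ p ∈ (Nat.primesLE w).erase 7, m ^ 3 % p ≠ a0 p % p} : ℝ)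
      + 2 ≤ #(bigP z) := by linarith
  exact_mod_cast this

end Pool.Agent.H73.Cub
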