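import Mathlib

/-!
Helper for MP_15f56c_nt: the number of cubes modulo a prime, and the greedy choice of residues.
-/

set_option autoImplicit false

open Finset Real

namespace Pool.Agent.H73.Cub

/-- the set of cubes modulo `p` -/
def cubesMod (p : ℕ) : Finset ℕ := (range p).image (fun x => x ^ 3 % p)

lemma cube_mem {p : ℕ} (hp : 0 < p) (m : ℕ) : m ^ 3 % p ∈ cubesMod p := by
  unfold cubesMod
  rw [Finset.mem_image]
  refine ⟨m % p, Finset.mem_range.mpr (Nat.mod_lt _ hp), ?_⟩
  rw [Nat.pow_mod, Nat.mod_mod, ← Nat.pow_mod]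

lemma card_cubesMod_le (p : ℕ) : #(cubesMod p) ≤ p := by
  unfold cubesMod
  exact Finset.card_image_le.trans (by rw [Finset.card_range])

lemma card_cubesMod_pos {p : ℕ} (hp : 0 < p) : 0 < #(cubesMod p) :=
  Finset.card_pos.mpr ⟨_, cube_mem hp 0⟩

/-- if `p = 1 mod 3` then there are at most `(p+2)/3` cubes -/
lemma card_cubesMod_one {p : ℕ} (hp : p.Prime) (h3 : p % 3 = 1) : 3 * #(cubesMod p) ≤ p + 2 := by
  have : Fact p.Prime := ⟨hp⟩
  have hdvd : 3 ∣ Fintype.card (ZMod p)ˣ := by
    rw [ZMod.card_units]; omega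
  have : Fact (Nat.Prime 3) := ⟨Nat.prime_three⟩
  obtain ⟨g, hg⟩ := exists_prime_orderOf_dvd_card 3 hdvd
  have hg3 : (g : ZMod p) ^ 3 = 1 := by
    have := pow_orderOf_eq_one g
    rw [hg] at this
    have h2 := congrArg (Units.val) this
    simpa using h2
  have hg1 : (g : ZMod p) ≠ 1 := by
    intro h
    have : g = 1 := by ext; simpa using h
    rw [this, orderOf_one] at hg
    omega
  -- the cube map on nonzero residues
  let c : ZMod p → ZMod p := fun x => x ^ 3
  let S : Finset (ZMod p) := Finset.univ.erase 0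
  let T : Finset (ZMod p) := S.image c
  have hfib : ∀ y ∈ T, 3 ≤ #{x ∈ S | c x = y} := by
    intro y hy
    obtain ⟨x, hx, rfl⟩ := Finset.mem_image.mp hy
    have hx0 : x ≠ 0 := (Finset.mem_erase.mp hx).1
    have hg0 : (g : ZMod p) ≠ 0 := g.ne_zero
    have hsub : ({x, x * g, x * g * g} : Finset (ZMod p)) ⊆ {x' ∈ S | c x' = c x} := by
      intro u hu
      rw [Finset.mem_insert, Finset.mem_insert, Finset.mem_singleton] at hu
      rw [Finset.mem_filter]
      rcases hu with rfl | rfl | rfl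
      · exact ⟨hx, rfl⟩
      · refine ⟨Finset.mem_erase.mpr ⟨mul_ne_zero hx0 hg0, Finset.mem_univ _⟩, ?_⟩
        show (x * g) ^ 3 = x ^ 3
        rw [mul_pow, hg3, mul_one]
      · refine ⟨Finset.mem_erase.mpr ⟨mul_ne_zero (mul_ne_zero hx0 hg0) hg0, Finset.mem_univ _⟩, ?_⟩
        show (x * g * g) ^ 3 = x ^ 3
        rw [mul_pow, mul_pow, hg3, mul_one, mul_one]
    have hcard : #({x, x * g, x * g * g} : Finset (ZMod p)) = 3 := by
      have hgg : (g : ZMod p) * g ≠ 1 := by
        intro h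
        apply hg1
        have h4 : (g : ZMod p) ^ 3 = g := by
          calc (g : ZMod p) ^ 3 = g * g * g := by ring
            _ = g := by rw [h, one_mul]
        rw [hg3] at h4
        exact h4.symm
      rw [Finset.card_insert_of_notMem, Finset.card_insert_of_notMem, Finset.card_singleton]
      · rw [Finset.mem_singleton]
        intro h
        have : x * g * (g : ZMod p) = x * g * 1 := by rw [mul_one]; exact h.symm
        exact hg1 (mul_left_cancel₀ (mul_ne_zero hx0 hg0) this)
      · rw [Finset.mem_insert, Finset.mem_singleton, not_or]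
        constructor
        · intro h
          have : x * (g : ZMod p) = x * 1 := by rw [mul_one]; exact h.symm
          exact hg1 (mul_left_cancel₀ hx0 this)
        · intro h
          have : x * ((g : ZMod p) * g) = x * 1 := by rw [mul_one, ← mul_assoc]; exact h.symm
          exact hgg (mul_left_cancel₀ hx0 this)
    rw [← hcard]
    exact Finset.card_le_card hsub
  have h1 : #T * 3 ≤ #S := by
    have := Finset.card_eq_sum_card_image c S
    rw [this, Finset.card_eq_sum_ones, Finset.sum_mul]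
    apply Finset.sum_le_sum
    intro y hy
    rw [one_mul]
    exact hfib y hy
  have hS : #S = p - 1 := by
    have : #S = #(Finset.univ : Finset (ZMod p)) - 1 := Finset.card_erase_of_mem (Finset.mem_univ _)
    rw [this, Finset.card_univ, ZMod.card]
  have h2 : #(cubesMod p) ≤ #T + 1 := by
    have hmap : ((cubesMod p).image (fun x : ℕ => (x : ZMod p))) ⊆ insert 0 T := by
      intro y hy
      obtain ⟨u, hu, rfl⟩ := Finset.mem_image.mp hy
      obtain ⟨x, hx, rfl⟩ := Finset.mem_image.mp hu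
      rw [ZMod.natCast_mod, Nat.cast_pow]
      by_cases h : (x : ZMod p) = 0
      · rw [h]; simp
      · apply Finset.mem_insert_of_mem
        exact Finset.mem_image.mpr ⟨x, Finset.mem_erase.mpr ⟨h, Finset.mem_univ _⟩, rfl⟩
    have hinj : Set.InjOn (fun x : ℕ => (x : ZMod p)) (cubesMod p) := by
      intro a ha b hb hab
      have ha' : a < p := by
        obtain ⟨x, hx, rfl⟩ := Finset.mem_image.mp (Finset.mem_coe.mp ha)
        exact Nat.mod_lt _ hp.pos
      have hb' : b < p := by
        obtain ⟨x, hx, rfl⟩ := Finset.mem_image.mp (Finset.mem_coe.mp hb)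
        exact Nat.mod_lt _ hp.pos
      have := (ZMod.natCast_eq_natCast_iff' a b p).mp hab
      rwa [Nat.mod_eq_of_lt ha', Nat.mod_eq_of_lt hb'] at this
    rw [← Finset.card_image_of_injOn hinj]
    exact (Finset.card_le_card hmap).trans (Finset.card_insert_le _ _)
  have := hp.one_lt
  omega

/-- one greedy step -/
lemma greedy_step {p : ℕ} (hp : 0 < p) (S : Finset ℕ) :
    ∃ r : ℕ, (#{m ∈ S | m ^ 3 % p ≠ r % p} : ℝ) ≤ (#S : ℝ) * (1 - 1 / (#(cubesMod p) : ℝ)) := by
  have hk : 0 < #(cubesMod p) := card_cubesMod_pos hp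
  have hk' : (0 : ℝ) < #(cubesMod p) := by exact_mod_cast hk
  by_contra hcon
  push Not at hcon
  have h1 : ∀ r ∈ cubesMod p, (#{m ∈ S | m ^ 3 % p = r} : ℝ) < (#S : ℝ) * (1 / (#(cubesMod p) : ℝ)) := by
    intro r hr
    have hr' : r % p = r := by
      obtain ⟨x, hx, rfl⟩ := Finset.mem_image.mp hr
      exact Nat.mod_mod _ _
    have h2 := hcon r
    rw [hr'] at h2
    have h3 : (#{m ∈ S | m ^ 3 % p = r} : ℝ) + #{m ∈ S | m ^ 3 % p ≠ r} = #S := by
      exact_mod_cast Finset.card_filter_add_card_filter_not (s := S) (fun m => m ^ 3 % p = r)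
    linarith
  have h2 : (∑ r ∈ cubesMod p, (#{m ∈ S | m ^ 3 % p = r} : ℝ)) = #S := by
    have := Finset.card_eq_sum_card_fiberwise (f := fun m => m ^ 3 % p) (s := S) (t := cubesMod p)
      (fun m _ => cube_mem hp m)
    exact_mod_cast this.symm
  have h3 : (∑ r ∈ cubesMod p, (#{m ∈ S | m ^ 3 % p = r} : ℝ)) <
      ∑ r ∈ cubesMod p, (#S : ℝ) * (1 / (#(cubesMod p) : ℝ)) :=
    Finset.sum_lt_sum_of_nonempty (Finset.card_pos.mp hk) h1
  rw [h2, Finset.sum_const, nsmul_eq_mul] at h3
  have h4 : (#(cubesMod p) : ℝ) * ((#S : ℝ) * (1 / (#(cubesMod p) : ℝ))) = #S := by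
    field_simp
  linarith

/-- the greedy choice over a set of primes -/
lemma greedy_all (P S : Finset ℕ) (hP : ∀ p ∈ P, p.Prime) :
    ∃ a : ℕ → ℕ, (#{m ∈ S | ∀ p ∈ P, m ^ 3 % p ≠ a p % p} : ℝ) ≤
      (#S : ℝ) * ∏ p ∈ P, (1 - 1 / (#(cubesMod p) : ℝ)) := by
  induction P using Finset.induction_on with
  | empty => exact ⟨fun _ => 0, by simp⟩
  | insert q P hq ih =>
    obtain ⟨a, ha⟩ := ih (fun p hp => hP p (Finset.mem_insert_of_mem hp))
    have hqp := hP q (Finset.mem_insert_self q P)
    obtain ⟨r, hr⟩ := greedy_step hqp.pos {m ∈ S | ∀ p ∈ P, m ^ 3 % p ≠ a p % p}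
    refine ⟨Function.update a q r, ?_⟩
    have hset : {m ∈ S | ∀ p ∈ insert q P, m ^ 3 % p ≠ Function.update a q r p % p} =
        {m ∈ {m ∈ S | ∀ p ∈ P, m ^ 3 % p ≠ a p % p} | m ^ 3 % q ≠ r % q} := by
      ext m
      simp only [Finset.mem_filter, Finset.mem_insert, forall_eq_or_imp, Function.update_self]
      constructor
      · rintro ⟨h1, h2, h3⟩
        refine ⟨⟨h1, fun p hp => ?_⟩, h2⟩
        have := h3 p hp
        have hne : p ≠ q := by rintro rfl; exact hq hp
        rwa [Function.update_of_ne hne] at this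
      · rintro ⟨⟨h1, h3⟩, h2⟩
        refine ⟨h1, h2, fun p hp => ?_⟩
        have hne : p ≠ q := by rintro rfl; exact hq hp
        rw [Function.update_of_ne hne]
        exact h3 p hp
    rw [hset, Finset.prod_insert hq]
    have h01 : 0 ≤ 1 - 1 / (#(cubesMod q) : ℝ) := by
      have h1 : (1 : ℝ) ≤ #(cubesMod q) := by exact_mod_cast card_cubesMod_pos hqp.pos
      have h2 : 1 / (#(cubesMod q) : ℝ) ≤ 1 := by
        rw [div_le_one (by linarith)]; exact h1
      linarith
    calc _ ≤ _ := hr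
      _ ≤ ((#S : ℝ) * ∏ p ∈ P, (1 - 1 / (#(cubesMod p) : ℝ))) * (1 - 1 / (#(cubesMod q) : ℝ)) := by
          gcongr
      _ = _ := by ring

end Pool.Agent.H73.Cub
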