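import Pool.Agent.H73.Cub.Kappa
import Pool.Agent.H93.MertensAP3

/-!
Helper for MP_15f56c_nt: the sieve product has dimension two.
-/

set_option autoImplicit false

open Finset Real

namespace Pool.Agent.H73.Cub

lemma prod_kappa : ∃ C : ℝ, 0 < C ∧ ∀ w : ℕ, 8 ≤ w →
    ∏ p ∈ (Nat.primesLE w).erase 7, (1 - 1 / (#(cubesMod p) : ℝ)) ≤ C / (Real.log w) ^ 2 := by
  obtain ⟨C0, hC0, hM⟩ := Pool.Agent.H93.exists_mertens_recip
  set K : ℝ := C0 * ((3 : ℕ) : ℝ) ^ 5 / Real.log (7 : ℕ) with hK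
  refine ⟨Real.exp (2 * Real.log (Real.log (7 : ℕ)) + 4 * K + 1), Real.exp_pos _, ?_⟩
  intro w hw
  have htot : ((Nat.totient 3 : ℕ) : ℝ) = 2 := by
    rw [Nat.totient_prime Nat.prime_three]; norm_num
  have h1 := hM 3 (1 : ZMod 3) isUnit_one 7 w (by norm_num) (by omega)
  have h2 := hM 3 (2 : ZMod 3) (by decide) 7 w (by norm_num) (by omega)
  rw [htot] at h1 h2
  set A1 := (Ioc 7 w).filter (fun n : ℕ => n.Prime ∧ (n : ZMod 3) = 1) with hA1
  set A2 := (Ioc 7 w).filter (fun n : ℕ => n.Prime ∧ (n : ZMod 3) = 2) with hA2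
  have hwr : (8 : ℝ) ≤ w := by exact_mod_cast hw
  have hlogw : 0 < Real.log w := Real.log_pos (by linarith)
  -- each factor
  have hfac : ∀ p ∈ (Nat.primesLE w).erase 7, (1 - 1 / (#(cubesMod p) : ℝ)) ≤
      Real.exp (-(1 / (#(cubesMod p) : ℝ))) := by
    intro p _
    have := Real.add_one_le_exp (-(1 / (#(cubesMod p) : ℝ)))
    linarith
  have hnn : ∀ p ∈ (Nat.primesLE w).erase 7, 0 ≤ (1 - 1 / (#(cubesMod p) : ℝ)) := by
    intro p hp
    have hp' := (Nat.mem_primesLE.mp (Finset.mem_erase.mp hp).2).2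
    have h1 : (1 : ℝ) ≤ #(cubesMod p) := by exact_mod_cast card_cubesMod_pos hp'.pos
    have h2 : 1 / (#(cubesMod p) : ℝ) ≤ 1 := by
      rw [div_le_one (by linarith)]; exact h1
    linarith
  have hprod := Finset.prod_le_prod hnn hfac
  rw [← Real.exp_sum, Finset.sum_neg_distrib] at hprod
  refine hprod.trans ?_
  -- the lower bound for the sum
  have hsub : A1 ∪ A2 ⊆ (Nat.primesLE w).erase 7 := by
    intro p hp
    rw [Finset.mem_union, hA1, hA2, Finset.mem_filter, Finset.mem_filter, Finset.mem_Ioc] at hp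
    rw [Finset.mem_erase, Nat.mem_primesLE]
    rcases hp with ⟨⟨h7, hpw⟩, hpp, _⟩ | ⟨⟨h7, hpw⟩, hpp, _⟩
    · exact ⟨by omega, hpw, hpp⟩
    · exact ⟨by omega, hpw, hpp⟩
  have hdisj : Disjoint A1 A2 := by
    rw [Finset.disjoint_left]
    intro p hp hp'
    rw [hA1, Finset.mem_filter] at hp
    rw [hA2, Finset.mem_filter] at hp'
    have : (1 : ZMod 3) = 2 := hp.2.2.symm.trans hp'.2.2
    exact absurd this (by decide)
  have hs : ∑ p ∈ A1, 1 / (#(cubesMod p) : ℝ) + ∑ p ∈ A2, 1 / (#(cubesMod p) : ℝ) ≤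
      ∑ p ∈ (Nat.primesLE w).erase 7, 1 / (#(cubesMod p) : ℝ) := by
    rw [← Finset.sum_union hdisj]
    apply Finset.sum_le_sum_of_subset_of_nonneg hsub
    intro p _ _
    positivity
  have hA1s : 3 * ∑ n ∈ A1, (1 : ℝ) / n - 1 ≤ ∑ p ∈ A1, 1 / (#(cubesMod p) : ℝ) := by
    have hstep : ∀ p ∈ A1, 3 * ((1 : ℝ) / p) - 6 * ((p : ℝ) ^ 2)⁻¹ ≤ 1 / (#(cubesMod p) : ℝ) := by
      intro p hp
      rw [hA1, Finset.mem_filter, Finset.mem_Ioc] at hp
      obtain ⟨⟨h7, hpw⟩, hpp, h3⟩ := hp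
      have hmod : p % 3 = 1 := by
        have := (ZMod.natCast_eq_natCast_iff' p 1 3).mp (by simpa using h3)
        simpa using this
      have hk := card_cubesMod_one hpp hmod
      have hkpos : (0 : ℝ) < #(cubesMod p) := by exact_mod_cast card_cubesMod_pos hpp.pos
      have hk' : 3 * (#(cubesMod p) : ℝ) ≤ p + 2 := by exact_mod_cast hk
      have hp0 : (0 : ℝ) < p := by exact_mod_cast hpp.pos
      have h5 : 3 / ((p : ℝ) + 2) ≤ 1 / (#(cubesMod p) : ℝ) := by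
        rw [div_le_div_iff₀ (by positivity) hkpos]
        linarith
      refine le_trans ?_ h5
      rw [le_div_iff₀ (by positivity)]
      have h6 : (3 * ((1 : ℝ) / p) - 6 * ((p : ℝ) ^ 2)⁻¹) * ((p : ℝ) + 2) = 3 - 12 / (p : ℝ) ^ 2 := by
        field_simp
        ring
      rw [h6]
      have : 0 ≤ 12 / (p : ℝ) ^ 2 := by positivity
      linarith
    have hsum := Finset.sum_le_sum hstep
    rw [Finset.sum_sub_distrib, ← Finset.mul_sum, ← Finset.mul_sum] at hsum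
    have hsq : ∑ n ∈ A1, ((n : ℝ) ^ 2)⁻¹ ≤ 1 / 7 := by
      calc ∑ n ∈ A1, ((n : ℝ) ^ 2)⁻¹ ≤ ∑ n ∈ Ioc 7 w, ((n : ℝ) ^ 2)⁻¹ :=
            Finset.sum_le_sum_of_subset_of_nonneg (Finset.filter_subset _ _)
              (fun n _ _ => by positivity)
        _ ≤ ((7 : ℕ) : ℝ)⁻¹ - (w : ℝ)⁻¹ := sum_Ioc_inv_sq_le_sub (by norm_num) (by omega)
        _ ≤ 1 / 7 := by
            have : (0 : ℝ) ≤ (w : ℝ)⁻¹ := by positivity
            norm_num
    linarith
  have hA2s : ∑ n ∈ A2, (1 : ℝ) / n ≤ ∑ p ∈ A2, 1 / (#(cubesMod p) : ℝ) := by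
    apply Finset.sum_le_sum
    intro p hp
    rw [hA2, Finset.mem_filter, Finset.mem_Ioc] at hp
    have hpp := hp.2.1
    have hkpos : (0 : ℝ) < #(cubesMod p) := by exact_mod_cast card_cubesMod_pos hpp.pos
    apply one_div_le_one_div_of_le hkpos
    exact_mod_cast card_cubesMod_le p
  have h1' := (abs_le.mp h1).1
  have h2' := (abs_le.mp h2).1
  have hlow : 2 * Real.log (Real.log w) - (2 * Real.log (Real.log (7 : ℕ)) + 4 * K + 1) ≤
      ∑ p ∈ (Nat.primesLE w).erase 7, 1 / (#(cubesMod p) : ℝ) := by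
    linarith
  calc Real.exp (-∑ p ∈ (Nat.primesLE w).erase 7, 1 / (#(cubesMod p) : ℝ))
      ≤ Real.exp ((2 * Real.log (Real.log (7 : ℕ)) + 4 * K + 1) - 2 * Real.log (Real.log w)) := by
        apply Real.exp_le_exp.mpr; linarith
    _ = _ := by
        rw [Real.exp_sub]
        congr 1
        rw [show 2 * Real.log (Real.log w) = ((2 : ℕ) : ℝ) * Real.log (Real.log w) by norm_num,
          Real.exp_nat_mul, Real.exp_log hlogw]

end Pool.Agent.H73.Cub
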